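import Pool.Agent.H79.MZ.L2
import Pool.Agent.H79.MZ.E5
import Pool.Agent.H79.MZ.F1

/-!
# MP_a278ce_lc: the real boundary of the equivalence relation of a Diophantine interpretation

`Interp D φ`: `(D, φ)` is a Diophantine interpretation of the ring `ℤ` in `ℚ` (exactly the data of the frozen statement;
the class of `x ∈ D` is the set of all `y ∈ D` with `φ y = φ x`).  `Att D φ R κ`: `κ : R → ℤ` is a Diophantine map to
the interpreted integers, for example `R = D`, `κ = φ`, or `R ⊆ D` Diophantine and `κ = φ`.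
-/

open MvPolynomial H79.MZ

namespace Pool.Agent.Results.MP_a278ce_lc.BoundaryOfClasses

/-- Let `(D, φ)` be a Diophantine interpretation of `ℤ` in `ℚ`, and let `κ : R → ℤ` be a Diophantine map to the
interpreted integers with infinitely many values.
(1) If `κ x = κ y` is equivalent, for `x, y ∈ R`, to a quantifier-free condition in the ordered field `ℚ` (a condition
on the signs of finitely many polynomials at `(x, y)`), then Mazur's conjecture is false.
(2) If Mazur's conjecture is true, then there is a Diophantine `R' ⊆ R`, on which `κ` has infinitely many values, such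
that the real boundary `bdry R' κ` between the pairs with `κ x = κ y` and the pairs with `κ x ≠ κ y` is Zariski dense
in `R' × R'`: every polynomial which vanishes on it vanishes on `R' × R'`. -/
theorem result :
    (∀ (n : ℕ) (D : Set (Fin n → ℚ)) (φ : (Fin n → ℚ) → ℤ), Interp D φ →
      ∀ (m : ℕ) (R : Set (Fin m → ℚ)) (κ : (Fin m → ℚ) → ℤ), Att D φ R κ → (κ '' R).Infinite →
      ∀ (s : ℕ) (g : Fin s → MvPolynomial (Fin m ⊕ Fin m) ℚ) (P : Set (Fin s → SignType)),
        (∀ x ∈ R, ∀ y ∈ R,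
          (κ x = κ y ↔ (fun i => SignType.sign (eval (Sum.elim x y) (g i))) ∈ P)) → ¬ Mazur) ∧
    (Mazur → ∀ (n : ℕ) (D : Set (Fin n → ℚ)) (φ : (Fin n → ℚ) → ℤ), Interp D φ →
      ∀ (m : ℕ) (R : Set (Fin m → ℚ)) (κ : (Fin m → ℚ) → ℤ), Att D φ R κ → (κ '' R).Infinite →
      ∃ R' ⊆ R, QD R' ∧ (κ '' R').Infinite ∧
        ∀ p : MvPolynomial (Fin m ⊕ Fin m) ℚ, (∀ c ∈ bdry R' κ, aeval c p = 0) →
          ∀ x ∈ R', ∀ y ∈ R', eval (Sum.elim x y) p = 0) ∧
    (∀ (n : ℕ) (D : Set (Fin n → ℚ)) (φ : (Fin n → ℚ) → ℤ), Interp D φ →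
      ∀ R ⊆ D, QD R → Att D φ R φ) := by
  refine ⟨fun _ _ _ h _ _ _ hA hinf s g P hE => E5_main h hA hinf s g P hE, ?_, ?_⟩
  · intro hM n D φ h m R κ hA hinf
    by_contra hcon
    refine L2_main h hA hinf ?_ hM
    intro R' hR' hQ hi
    by_contra hp
    refine hcon ⟨R', hR', hQ, hi, fun p hb x hx y hy => ?_⟩
    by_contra hne
    exact hp ⟨p, hb, x, hx, y, hy, hne⟩
  · intro n D φ h R hR hQ
    exact E1_sub (F1_self h) hQ hR

end Pool.Agent.Results.MP_a278ce_lc.BoundaryOfClasses
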