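import Pool.Agent.H79.MZ.F1
import Pool.Agent.H79.MZ.T5

/-!
# MP_a278ce_lc: interpretations of `ℤ` in `ℚ` whose classes have algebraic or continuous invariants

`Interp D φ`: `(D, φ)` is a Diophantine interpretation of the ring `ℤ` in `ℚ` (exactly the data of the frozen statement;
the class of `x ∈ D` is the set of all `y ∈ D` with `φ y = φ x`).  `Att D φ R κ`: `κ : R → ℤ` is a Diophantine map to
the interpreted integers, for example `R = D`, `κ = φ`, or `R ⊆ D` Diophantine and `κ = φ`.
-/

open MvPolynomial H79.MZ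

namespace Pool.Agent.Results.MP_a278ce_lc.InvariantsOfClasses

/-- Let `(D, φ)` be a Diophantine interpretation of `ℤ` in `ℚ`.  Mazur's conjecture is false in each of the following
three cases.
(A) There is a Diophantine map `κ : R → ℤ` to the interpreted integers with infinitely many values, all of whose fibres
have at most `d` elements (for example, a Diophantine `R ⊆ D` meets infinitely many classes, each in at most `d` points).
(B) There is a Diophantine family of sets `Y k ⊆ ℚ^m` indexed by the interpreted integers (for example the family of the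
classes), infinitely many of them nonempty, and a number `d` such that for each nonempty `Y k` only finitely many `Y l`
satisfy the same polynomial equations of degree at most `d` as `Y k`.
(C) There are a Diophantine map `κ : R → ℤ` to the interpreted integers and a continuous real function with listable
cuts which takes infinitely many values on `R` and is constant on the fibres of `κ`. -/
theorem result :
    (∀ (n : ℕ) (D : Set (Fin n → ℚ)) (φ : (Fin n → ℚ) → ℤ), Interp D φ →
      ∀ (m : ℕ) (R : Set (Fin m → ℚ)) (κ : (Fin m → ℚ) → ℤ), Att D φ R κ → (κ '' R).Infinite →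
      ∀ d : ℕ, (∀ k : ℤ, (fib R κ k).encard ≤ d) → ¬ Mazur) ∧
    (∀ (n : ℕ) (D : Set (Fin n → ℚ)) (φ : (Fin n → ℚ) → ℤ), Interp D φ →
      ∀ (m : ℕ) (R : Set (Fin m ⊕ Fin n → ℚ)), QD R → ∀ d : ℕ,
        {k : ℤ | (fam R D φ k).Nonempty}.Infinite →
        (∀ k : ℤ, (fam R D φ k).Nonempty → {l : ℤ | eqs d (fam R D φ l) = eqs d (fam R D φ k)}.Finite) →
        ¬ Mazur) ∧
    (∀ (n : ℕ) (D : Set (Fin n → ℚ)) (φ : (Fin n → ℚ) → ℤ), Interp D φ →
      ∀ (m : ℕ) (R : Set (Fin m → ℚ)) (κ : (Fin m → ℚ) → ℤ), Att D φ R κ →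
      ∀ f : (Fin m → ℝ) → ℝ, Continuous f →
        ZD {z : Fin m ⊕ Fin 2 → ℚ | (fun i => z (Sum.inl i)) ∈ R ∧
          ((z (Sum.inr 0) : ℚ) : ℝ) < f (rl fun i => z (Sum.inl i)) ∧
          f (rl fun i => z (Sum.inl i)) < ((z (Sum.inr 1) : ℚ) : ℝ)} →
        (∀ x ∈ R, ∀ y ∈ R, κ x = κ y → f (rl x) = f (rl y)) →
        ((fun x => f (rl x)) '' R).Infinite → ¬ Mazur) ∧
    (∀ (n : ℕ) (D : Set (Fin n → ℚ)) (φ : (Fin n → ℚ) → ℤ), Interp D φ →
      ∀ R ⊆ D, QD R → Att D φ R φ) :=
  ⟨fun _ _ _ h _ _ _ hA hinf d hd => F1_main h hA hinf d hd,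
    fun _ _ _ h _ _ hR d hinf hsep => C3_main h hR d hinf hsep,
    fun _ _ _ h _ _ _ hA f hf hcut hconst hinf => T5_star h hA f hf hcut hconst hinf,
    fun _ _ _ h _ hR hQ => E1_sub (F1_self h) hQ hR⟩

end Pool.Agent.Results.MP_a278ce_lc.InvariantsOfClasses
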